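import Pool.Agent.Work.MP_1c7b0d_near.Interface

/-! Blocks GAPB, RHC, SG, TG, LG, PG. -/

set_option autoImplicit false

namespace Pool.Near

open Real

theorem gap_add (F G : ℝ → ℝ) (q s : ℝ) : gap (fun x => F x + G x) q s = gap F q s + gap G q s := by
  unfold gap
  ring

theorem gap_sub (F G : ℝ → ℝ) (q s : ℝ) : gap (fun x => F x - G x) q s = gap F q s - gap G q s := by
  unfold gap
  ring

theorem p_GAPB : S_GAPB := by
  intro F F' F'' M q h s hs0 hs1
  have hconv : ConvexOn ℝ (Set.Icc q (q + 1)) (fun x => M * x ^ 2 / 2 - F x) := by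
    refine convexOn_of_hasDerivWithinAt2_nonneg (f' := fun x => M * x - F' x)
      (f'' := fun x => M - F'' x) (convex_Icc _ _) ?_ ?_ ?_ ?_
    · intro x hx
      have h1 := (h x hx).1.continuousAt
      have h2 : ContinuousAt (fun x : ℝ => M * x ^ 2 / 2) x := by fun_prop
      exact (h2.sub h1).continuousWithinAt
    · intro x hx
      have hx' := interior_subset hx
      have h1 := (h x hx').1
      have h2 : HasDerivAt (fun x : ℝ => M * x ^ 2 / 2) (M * x) x := by
        have h3 := ((hasDerivAt_pow 2 x).const_mul M).div_const 2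
        refine h3.congr_deriv ?_
        norm_num
        ring
      exact (h2.sub h1).hasDerivWithinAt
    · intro x hx
      have hx' := interior_subset hx
      have h1 := (h x hx').2.1
      have h2 : HasDerivAt (fun x : ℝ => M * x) M x := by
        simpa using (hasDerivAt_id x).const_mul M
      exact (h2.sub h1).hasDerivWithinAt
    · intro x hx
      have hx' := interior_subset hx
      have := (h x hx').2.2
      show 0 ≤ M - F'' x
      linarith
  have h4 := hconv.2 (show q ∈ Set.Icc q (q + 1) from Set.left_mem_Icc.2 (by linarith))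
    (show q + 1 ∈ Set.Icc q (q + 1) from Set.right_mem_Icc.2 (by linarith))
    (show 0 ≤ 1 - s by linarith) hs0 (by ring)
  simp only [smul_eq_mul] at h4
  have h5 : (1 - s) * q + s * (q + 1) = q + s := by ring
  rw [h5] at h4
  unfold gap
  nlinarith

theorem invd (f : ℝ → ℝ) (f' x : ℝ) (h : HasDerivAt f f' x) (hx : f x ≠ 0) :
    HasDerivAt (fun y => 1 / f y) (-f' / f x ^ 2) x := by
  have h1 := h.inv hx
  have h2 : (fun y => 1 / f y) = f⁻¹ := by
    funext y
    simp [one_div]
  rw [h2]
  exact h1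

theorem logd (x : ℝ) (hx : 0 < x) : HasDerivAt (fun y : ℝ => log (y + 1) - log y)
    (1 / (x + 1) - 1 / x) x := by
  have h1 : HasDerivAt (fun y : ℝ => log (y + 1)) (1 / (x + 1)) x := by
    have h2 : HasDerivAt (fun y : ℝ => y + 1) 1 x := (hasDerivAt_id x).add_const 1
    exact h2.log (by linarith)
  have h3 : HasDerivAt log (1 / x) x := by
    rw [one_div]
    exact hasDerivAt_log hx.ne'
  exact h1.sub h3

theorem p_RHC : S_RHC := by
  intro q s hq hs0 hs1
  have h := p_GAPB (fun x => - rho x)
    (fun x => -((log (x + 1) - log x) + (x + 1 / 2) * (1 / (x + 1) - 1 / x)))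
    (fun x => -(1 / (2 * x ^ 2 * (x + 1) ^ 2))) 0 q (fun x hx => by
      have hx0 : 0 < x := lt_of_lt_of_le hq hx.1
      refine ⟨?_, ?_, ?_⟩
      · have h1 : HasDerivAt (fun y : ℝ => y + 1 / 2) 1 x := (hasDerivAt_id x).add_const _
        have h2 := (h1.mul (logd x hx0)).neg
        refine h2.congr_deriv ?_
        ring
      · have h1 : HasDerivAt (fun y : ℝ => y + 1 / 2) 1 x := (hasDerivAt_id x).add_const _
        have h3 : HasDerivAt (fun y : ℝ => 1 / (y + 1) - 1 / y)
            (-1 / (x + 1) ^ 2 - (-1 / x ^ 2)) x := by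
          have h4 : HasDerivAt (fun y : ℝ => 1 / (y + 1)) (-1 / (x + 1) ^ 2) x := by
            have h5 : HasDerivAt (fun y : ℝ => y + 1) 1 x := (hasDerivAt_id x).add_const 1
            exact invd _ _ _ h5 (show x + 1 ≠ 0 by linarith)
          have h7 : HasDerivAt (fun y : ℝ => 1 / y) (-1 / x ^ 2) x := by
            exact invd _ _ _ (hasDerivAt_id x) hx0.ne'
          exact h4.sub h7
        have h9 := ((logd x hx0).add (h1.mul h3)).neg
        refine h9.congr_deriv ?_
        field_simp
        ring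
      · have : 0 < 1 / (2 * x ^ 2 * (x + 1) ^ 2) := by positivity
        linarith) s hs0 hs1
  have h2 : gap (fun x => - rho x) q s = - gap rho q s := by
    unfold gap
    ring
  rw [h2] at h
  linarith

theorem p_SG : S_SG := by
  intro q s hq hs0 hs1
  refine p_GAPB S (fun x => log x + (x + 1 / 2) * (1 / x)) (fun x => 1 / x - 1 / (2 * x ^ 2)) _ q
    (fun x hx => ?_) s hs0 hs1
  have hx0 : 0 < x := lt_of_lt_of_le hq hx.1
  have h1 : HasDerivAt (fun y : ℝ => y + 1 / 2) 1 x := (hasDerivAt_id x).add_const _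
  have h3 : HasDerivAt log (1 / x) x := by
    rw [one_div]
    exact hasDerivAt_log hx0.ne'
  refine ⟨?_, ?_, ?_⟩
  · have h2 := h1.mul h3
    refine h2.congr_deriv ?_
    ring
  · have h7 : HasDerivAt (fun y : ℝ => 1 / y) (-1 / x ^ 2) x := by
      exact invd _ _ _ (hasDerivAt_id x) hx0.ne'
    have h9 := h3.add (h1.mul h7)
    refine h9.congr_deriv ?_
    field_simp
    ring
  · have h4 : 1 / x ≤ 1 / q := one_div_le_one_div_of_le hq hx.1
    have h5 : 0 < 1 / (2 * x ^ 2) := by positivity
    linarith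

theorem p_TG : S_TG := by
  intro q s hq hs0 hs1
  refine p_GAPB T (fun x => 1 / 2 * (log (x + 1) - log x) - 1 / (2 * x))
    (fun x => 1 / (2 * x ^ 2 * (x + 1))) _ q (fun x hx => ?_) s hs0 hs1
  have hx0 : 0 < x := lt_of_lt_of_le hq hx.1
  refine ⟨?_, ?_, ?_⟩
  · have h1 : HasDerivAt (fun y : ℝ => (y + 1) / 2) (1 / 2) x :=
      ((hasDerivAt_id x).add_const 1).div_const 2
    have h2 := h1.mul (logd x hx0)
    refine h2.congr_deriv ?_
    field_simp
    ring
  · have h7 : HasDerivAt (fun y : ℝ => 1 / (2 * y)) (-1 / (2 * x ^ 2)) x := by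
      have h5 : HasDerivAt (fun y : ℝ => 2 * y) 2 x := by
        simpa using (hasDerivAt_id x).const_mul 2
      have h9 : HasDerivAt (fun y : ℝ => 1 / (2 * y)) (-2 / (2 * x) ^ 2) x :=
        invd _ _ _ h5 (show 2 * x ≠ 0 by positivity)
      refine h9.congr_deriv ?_
      field_simp
    have h2 := ((logd x hx0).const_mul (1 / 2)).sub h7
    refine h2.congr_deriv ?_
    field_simp
    ring
  · apply one_div_le_one_div_of_le (by positivity)
    have h4 := hx.1
    have h5 : q ^ 2 ≤ x ^ 2 := by nlinarith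
    have h6 : 2 * q ^ 2 * (q + 1) ≤ 2 * x ^ 2 * (q + 1) := by nlinarith
    nlinarith [sq_nonneg x]

theorem gapLG (q s : ℝ) (hq : 0 < q) (hs0 : 0 ≤ s) (hs1 : s ≤ 1) :
    0 ≤ gap (fun x => log (Gamma (x + 1))) q s := by
  have hc := convexOn_log_Gamma
  have h4 := hc.2 (show q + 1 ∈ Set.Ioi (0:ℝ) from Set.mem_Ioi.2 (by linarith))
    (show q + 1 + 1 ∈ Set.Ioi (0:ℝ) from Set.mem_Ioi.2 (by linarith))
    (show 0 ≤ 1 - s by linarith) hs0 (by ring)
  simp only [smul_eq_mul, Function.comp] at h4
  have h5 : (1 - s) * (q + 1) + s * (q + 1 + 1) = q + s + 1 := by ring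
  rw [h5] at h4
  unfold gap
  linarith

theorem L_rec (x : ℝ) (hx : 0 < x) : L x = rho x + L (x + 1) := by
  unfold L rho S
  have h1 : Gamma (x + 1 + 1) = (x + 1) * Gamma (x + 1) := Gamma_add_one (by linarith)
  rw [h1, log_mul (by linarith) (Gamma_pos_of_pos (by linarith)).ne']
  ring

theorem tel (q s : ℝ) (hq : 0 < q) (hs0 : 0 ≤ s) (hs1 : s ≤ 1) :
    gap L (q + 1) s ≤ gap L q s := by
  have h := p_RHC q s hq hs0 hs1
  have e1 := L_rec q hq
  have e2 := L_rec (q + 1) (by linarith)
  have e3 := L_rec (q + s) (by linarith)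
  unfold gap at *
  have e4 : q + s + 1 = q + 1 + s := by ring
  rw [e4] at e3
  have key : ((1 - s) * L q + s * L (q + 1) - L (q + s)) -
      ((1 - s) * L (q + 1) + s * L (q + 1 + 1) - L (q + 1 + s)) =
      (1 - s) * rho q + s * rho (q + 1) - rho (q + s) := by
    rw [show rho q = L q - L (q + 1) by linarith, show rho (q + 1) = L (q + 1) - L (q + 1 + 1) by linarith,
      show rho (q + s) = L (q + s) - L (q + 1 + s) by linarith]
    ring
  linarith

theorem p_LG : S_LG := by
  intro q s hq hs0 hs1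
  have h1 : ∀ N : ℕ, gap L (q + N) s ≤ gap L q s := by
    intro N
    induction N with
    | zero => simp
    | succ N ih =>
      have h2 := tel (q + N) s (by positivity) hs0 hs1
      have e : q + ((N + 1 : ℕ) : ℝ) = q + N + 1 := by push_cast; ring
      rw [e]
      exact h2.trans ih
  have h2 : ∀ N : ℕ, -(1 / (q + N) * (s * (1 - s) / 2)) ≤ gap L q s := by
    intro N
    refine le_trans ?_ (h1 N)
    have h3 := gapLG (q + N) s (by positivity) hs0 hs1
    have h4 := p_SG (q + N) s (by positivity) hs0 hs1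
    have h5 : gap L (q + N) s = gap (fun x => log (Gamma (x + 1))) (q + N) s -
        gap S (q + N) s := by
      unfold L
      exact gap_sub _ _ _ _
    rw [h5]
    linarith
  have h3 : Filter.Tendsto (fun N : ℕ => -(1 / (q + N) * (s * (1 - s) / 2))) Filter.atTop
      (nhds (-(0 * (s * (1 - s) / 2)))) := by
    refine (Filter.Tendsto.mul_const _ ?_).neg
    have h4 : Filter.Tendsto (fun N : ℕ => q + (N : ℝ)) Filter.atTop Filter.atTop :=
      Filter.tendsto_atTop_add_const_left _ _ tendsto_natCast_atTop_atTop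
    have h5 : (fun N : ℕ => 1 / (q + (N : ℝ))) = (fun N : ℕ => q + (N : ℝ))⁻¹ := by
      funext N
      simp [one_div]
    rw [h5]
    exact h4.inv_tendsto_atTop
  have h4 := le_of_tendsto' h3 h2
  simpa using h4

theorem p_PG : S_PG := by
  intro q s hq hs0 hs1
  have h1 : psi = fun x => T x - L x := by
    funext x
    unfold psi T L S
    ring
  rw [h1, gap_sub]
  have h2 := p_LG q s hq hs0 hs1
  have h3 := p_TG q s hq hs0 hs1
  linarith

end Pool.Near
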