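import Pool.Agent.Work.MP_1c7b0d_near.Interface

/-! Blocks LSV, LW, FINR. -/

set_option autoImplicit false

namespace Pool.Near

open Real

theorem p_LSV : S_LSV := by
  intro k hk
  have hk0 : (0:ℝ) < k := by exact_mod_cast hk
  have h1 : 0 < (k:ℝ) ^ k * ((k:ℝ) + 1) ^ (k + 1) := by positivity
  have h2 : (0:ℝ) < (k.factorial : ℝ) := by exact_mod_cast Nat.factorial_pos k
  refine ⟨div_pos (sqrt_pos.2 h1) h2, ?_⟩
  unfold Pool.Agent.Work.MP_1c7b0d_gt.sv psi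
  rw [log_div (sqrt_pos.2 h1).ne' h2.ne', log_sqrt h1.le, log_mul (by positivity) (by positivity),
    log_pow, log_pow, Gamma_nat_eq_factorial]
  push_cast
  ring

theorem p_LW : S_LW := by
  intro d K hd hK
  have hd0 : (0:ℝ) < d := by exact_mod_cast hd
  have hK0 : (0:ℝ) < K := by exact_mod_cast hK
  have e : ((d:ℝ) + K) / K = d / K + 1 := by field_simp
  have hG : 0 < Gamma ((d:ℝ) / K + 1) := Gamma_pos_of_pos (by positivity)
  unfold W
  have hA : 0 < ((d:ℝ) / (d + K)) ^ ((d:ℝ) / 2) := rpow_pos_of_pos (by positivity) _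
  have hB : 0 < (((d:ℝ) + K) / K) ^ ((d:ℝ) + K / 2) := rpow_pos_of_pos (by positivity) _
  have hC : 0 < Gamma (((d:ℝ) + K) / K) ^ K := pow_pos (by rw [e]; exact hG) _
  refine ⟨div_pos (mul_pos hA hB) hC, ?_⟩
  have e2 : log ((d:ℝ) / K + 1) = log (d + K) - log K := by
    rw [← e, log_div (by positivity) hK0.ne']
  rw [log_div (mul_pos hA hB).ne' hC.ne', log_mul hA.ne' hB.ne', log_rpow (by positivity),
    log_rpow (by positivity), log_pow, log_div hd0.ne' (by positivity), e, e2]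
  unfold psi
  rw [e2, log_div hd0.ne' hK0.ne']
  field_simp
  ring

theorem p_FINR (hPG : S_PG) (hLSV : S_LSV) (hLW : S_LW) : S_FINR := by
  intro d K hK hKd
  obtain ⟨q, hq⟩ : ∃ q, q = d / K := ⟨_, rfl⟩
  obtain ⟨r, hr⟩ : ∃ r, r = d % K := ⟨_, rfl⟩
  rw [← hq, ← hr]
  have hq1 : 1 ≤ q := by
    rw [hq]
    exact (Nat.one_le_div_iff (by omega)).2 hKd
  have hrK : r < K := by
    rw [hr]
    exact Nat.mod_lt _ (by omega)
  have hdd : d = K * q + r := by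
    rw [hq, hr]
    exact (Nat.div_add_mod d K).symm
  have hK0 : (0:ℝ) < K := by exact_mod_cast hK
  have hq0 : (0:ℝ) < q := by exact_mod_cast hq1
  have hr0 : (0:ℝ) ≤ r := by positivity
  have hrK' : (r:ℝ) ≤ K := by exact_mod_cast hrK.le
  obtain ⟨hs1, hs2⟩ := hLSV q hq1
  obtain ⟨ht1, ht2⟩ := hLSV (q + 1) (by omega)
  obtain ⟨hw1, hw2⟩ := hLW d K (by omega) hK
  have hx : (d:ℝ) / K = q + (r:ℝ) / K := by
    rw [hdd]
    push_cast
    field_simp
  have hg := hPG q ((r:ℝ) / K) hq0 (by positivity) (by rw [div_le_one hK0]; exact hrK')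
  unfold gap at hg
  have hpos : 0 < exp (-((r:ℝ) * (K - r) / (4 * K * (q:ℝ) ^ 2 * ((q:ℝ) + 1)))) *
    (Pool.Agent.Work.MP_1c7b0d_gt.sv q ^ (K - r) *
      Pool.Agent.Work.MP_1c7b0d_gt.sv (q + 1) ^ r) :=
    mul_pos (exp_pos _) (mul_pos (pow_pos hs1 _) (pow_pos ht1 _))
  rw [← log_le_log_iff hpos hw1, log_mul (exp_pos _).ne' (mul_pos (pow_pos hs1 _) (pow_pos ht1 _)).ne',
    log_mul (pow_pos hs1 _).ne' (pow_pos ht1 _).ne', log_exp, log_pow, log_pow, hs2, ht2, hw2, hx,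
    Nat.cast_sub hrK.le]
  push_cast
  have e1 : (r:ℝ) * (K - r) / (4 * K * (q:ℝ) ^ 2 * ((q:ℝ) + 1)) =
      K * (1 / (2 * (q:ℝ) ^ 2 * (q + 1)) * ((r:ℝ) / K * (1 - (r:ℝ) / K) / 2)) := by
    field_simp
    ring
  have e2 : ((K:ℝ) - r) * psi q + r * psi (q + 1) - K * psi (q + r / K) =
      K * ((1 - (r:ℝ) / K) * psi q + r / K * psi (q + 1) - psi (q + r / K)) := by
    field_simp
  have e3 := mul_le_mul_of_nonneg_left hg hK0.le
  linarith

end Pool.Near
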