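import Pool.Agent.Work.MP_1c7b0d_lh60.FIN
import Pool.Agent.Work.MP_1c7b0d_lh60.CVI
import Pool.Agent.Work.MP_1c7b0d_lh60.CVS
import Pool.Agent.Work.MP_1c7b0d_lh60.CVD
import Pool.Agent.Work.MP_1c7b0d_lh60.CVT
import Pool.Agent.Work.MP_1c7b0d_lh60.PDY
import Pool.Agent.Work.MP_1c7b0d_lh60.ONC
import Pool.Agent.Work.MP_1c7b0d_lh60.FRI
import Pool.Agent.Work.MP_1c7b0d_lh60.TRF
import Pool.Agent.Work.MP_1c7b0d_lh60.ZB
import Pool.Agent.Work.MP_1c7b0d_lh73.EXIG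
import Pool.Agent.Work.MP_1c7b0d_lh73.EXVG
import Pool.Agent.Work.MP_1c7b0d_lh73.TOP73
import Pool.Agent.Work.MP_1c7b0d_near.B_ANA
import Pool.Agent.Work.MP_1c7b0d_near.B_FINR

/-! Assembly of the near optimality of products of regular simplices (helper73). -/

namespace Pool.Near

open MeasureTheory Matrix Pool.LH60 Pool.LH73 Pool.Agent.Work.MP_1c7b0d_gt


theorem exists_product (d K : ℕ) (hK : 1 ≤ K) (hKd : K ≤ d) :
    ∃ u : Fin (d + K) → EuclideanSpace ℝ (Fin d), (∀ i, ‖u i‖ = 1) ∧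
      volume (circ u) = ENNReal.ofReal (sv (d / K) ^ (K - d % K) * sv (d / K + 1) ^ (d % K)) := by
  have hCVT : Stmt_CVT := CVT_thm CVI_thm (CVS_thm FRI_thm) CVD_thm PDY_thm
  obtain ⟨U, hU, hp⟩ := (EXIG_thm ONC_thm) d K hK hKd
  have hn := Pool.LH73.TOP73.norm_vecU U hU
  refine ⟨Pool.LH73.TOP73.vecU U, hn, ?_⟩
  obtain ⟨hv, hun⟩ := TRF_thm d K (Pool.LH73.TOP73.vecU U) hn
  rw [hv, Pool.LH73.TOP73.matU_vecU]
  exact (EXVG_thm hCVT ZB_thm) d K U hK hKd hU hp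

theorem final (d K : ℕ) (hK : 1 ≤ K) (hKd : K ≤ d) :
    (∀ u : Fin (d + K) → EuclideanSpace ℝ (Fin d), (∀ i, ‖u i‖ = 1) →
      ENNReal.ofReal (Real.exp (-((d % K : ℕ) * (K - (d % K : ℕ)) /
          (4 * K * (d / K : ℕ) ^ 2 * ((d / K : ℕ) + 1)) : ℝ)) *
        (sv (d / K) ^ (K - d % K) * sv (d / K + 1) ^ (d % K))) ≤ volume (circ u)) ∧
    (∃ u : Fin (d + K) → EuclideanSpace ℝ (Fin d), (∀ i, ‖u i‖ = 1) ∧
      volume (circ u) = ENNReal.ofReal (sv (d / K) ^ (K - d % K) * sv (d / K + 1) ^ (d % K))) := by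
  refine ⟨?_, exists_product d K hK hKd⟩
  intro u hu
  refine le_trans (ENNReal.ofReal_le_ofReal (p_FINR p_PG p_LSV p_LW d K hK hKd)) ?_
  exact ((Pool.LH60.top_fin d K (le_trans hK hKd) hK).1 u hu).1

end Pool.Near
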