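import Pool.Agent.Work.MP_1c7b0d_gt.Defs

/-!
# Products of regular simplices are nearly optimal for all `d < n ≤ 2 d` (MP_1c7b0d_gt)

The logarithm of the bound of SharpVolumeBound is `K psi(d/K)`, the logarithm of the volume of the product of
simplices is `K` times the linear interpolation of `psi` at `q`, `q + 1`.  `gap F q s` = interpolation minus value.
`gap` of `log Gamma(x+1)` is at least the gap of `S(x) = (x+1/2) log x`, since for `L = log Gamma(x+1) - S`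
`L(x) - L(x+1) = rho(x)` is convex (telescoping; log-convexity of Gamma; the gap of `S` at `q+N` tends to `0`).
So the gap of `psi` is at most that of `T(x) = (x+1)/2 (log(x+1) - log x)`, `T'' = 1/(2 x^2 (x+1))`.
-/

set_option autoImplicit false

namespace Pool.Near

open Real

/-- linear interpolation minus value -/
def gap (F : ℝ → ℝ) (q s : ℝ) : ℝ := (1 - s) * F q + s * F (q + 1) - F (q + s)

noncomputable def psi (x : ℝ) : ℝ :=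
  x / 2 * log x + (x + 1) / 2 * log (x + 1) - log (Gamma (x + 1))

noncomputable def rho (x : ℝ) : ℝ := (x + 1 / 2) * (log (x + 1) - log x)

noncomputable def S (x : ℝ) : ℝ := (x + 1 / 2) * log x

noncomputable def T (x : ℝ) : ℝ := (x + 1) / 2 * (log (x + 1) - log x)

noncomputable def L (x : ℝ) : ℝ := log (Gamma (x + 1)) - S x

/-- the bound of SharpVolumeBound -/
noncomputable def W (d K : ℕ) : ℝ :=
  ((d:ℝ) / (d + K)) ^ ((d:ℝ) / 2) * (((d:ℝ) + K) / K) ^ ((d:ℝ) + K / 2)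
    / Gamma (((d:ℝ) + K) / K) ^ K

/-- GAPB: `M x^2/2 - F x` is convex on `[q, q+1]` (`convexOn_of_hasDerivWithinAt2_nonneg` or similar), and the gap
of `M x^2/2` is `M s (1-s)/2`. -/
def S_GAPB : Prop := ∀ (F F' F'' : ℝ → ℝ) (M q : ℝ),
  (∀ x ∈ Set.Icc q (q + 1), HasDerivAt F (F' x) x ∧ HasDerivAt F' (F'' x) x ∧ F'' x ≤ M) →
  ∀ s : ℝ, 0 ≤ s → s ≤ 1 → gap F q s ≤ M * (s * (1 - s) / 2)

/-- RHC: `rho' = log(x+1) - log x - (x+1/2)/(x(x+1))`, `rho'' = 1/(2 x^2 (x+1)^2)` (from GAPB for `-rho`, `M = 0`) -/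
def S_RHC : Prop := ∀ q s : ℝ, 0 < q → 0 ≤ s → s ≤ 1 → 0 ≤ gap rho q s

/-- SG: `S'' = 1/x - 1/(2x^2) ≤ 1/q` (GAPB) -/
def S_SG : Prop := ∀ q s : ℝ, 0 < q → 0 ≤ s → s ≤ 1 → gap S q s ≤ 1 / q * (s * (1 - s) / 2)

/-- TG: `T'' = 1/(2 x^2 (x+1))` (GAPB) -/
def S_TG : Prop := ∀ q s : ℝ, 0 < q → 0 ≤ s → s ≤ 1 →
  gap T q s ≤ 1 / (2 * q ^ 2 * (q + 1)) * (s * (1 - s) / 2)

/-- LG: `0 ≤ gap L`: telescoping, `Real.convexOn_log_Gamma`, RHC, SG -/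
def S_LG : Prop := ∀ q s : ℝ, 0 < q → 0 ≤ s → s ≤ 1 → 0 ≤ gap L q s

/-- PG: from LG and TG: `psi = T - L` -/
def S_PG : Prop := ∀ q s : ℝ, 0 < q → 0 ≤ s → s ≤ 1 →
  gap psi q s ≤ 1 / (2 * q ^ 2 * (q + 1)) * (s * (1 - s) / 2)

/-- LSV: `sv k = sqrt(k^k (k+1)^(k+1))/k!` -/
def S_LSV : Prop := ∀ k : ℕ, 1 ≤ k → 0 < Pool.Agent.Work.MP_1c7b0d_gt.sv k ∧
  log (Pool.Agent.Work.MP_1c7b0d_gt.sv k) = psi k

/-- LW -/
def S_LW : Prop := ∀ d K : ℕ, 1 ≤ d → 1 ≤ K → 0 < W d K ∧ log (W d K) = K * psi ((d:ℝ) / K)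

/-- FINR: from PG, LSV, LW with `s = (d % K)/K` -/
def S_FINR : Prop := ∀ d K : ℕ, 1 ≤ K → K ≤ d →
  exp (-((d % K : ℕ) * (K - (d % K : ℕ)) / (4 * K * (d / K : ℕ) ^ 2 * ((d / K : ℕ) + 1)) : ℝ)) *
    (Pool.Agent.Work.MP_1c7b0d_gt.sv (d / K) ^ (K - d % K) *
      Pool.Agent.Work.MP_1c7b0d_gt.sv (d / K + 1) ^ (d % K)) ≤ W d K

end Pool.Near
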